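import Pool.Agent.Work.MP_a19274_gr.Quad
import Pool.Agent.Work.MP_a19274_gr.Final1

/-!
# Weak approximation for almost all intersections of `r` quadrics in `P^n`, `n ≥ 2 r + 1`, over `Q`

A quadratic form in `m = n + 1` variables is given by its `m (m + 1) / 2` coefficients, indexed by
the pairs `(i, j)` in `Fin m × Fin m` with `i ≤ j`.  Let `m ≥ 2 r + 2`.  For every `N ≥ 1` and
every `ε > 0` there are `c > 0` and `P` such that for every large `L` and, given `L`, for every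
large `A` the following holds for all systems of `r` forms with integer coefficients in `[-A, A]`
except for a proportion of at most `ε`: for every nonzero real zero `y` and all primitive `p`-adic
zeros `M_p`, `p ≤ P`, there are at least `c L` primitive integral zeros `x` with
`|x_i|^(m - 2 r) ≤ L A^r` such that a positive multiple of `x` is within `‖y‖ / N` of `y` and such
that `x` is congruent to `M_p` modulo `p ^ N` for every prime `p ≤ N`.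
-/

set_option autoImplicit false

namespace Pool.Agent.Results.MP_9fb703_nt.AlmostAllSystems

open Pool.GR

theorem exists_norm {m : ℕ} (y : Fin m → ℝ) (hy : y ≠ 0) : ∃ i, |y i| = ‖y‖ := by
  have hne : (Finset.univ : Finset (Fin m)).Nonempty := by
    by_contra h
    rw [Finset.not_nonempty_iff_eq_empty, Finset.univ_eq_empty_iff] at h
    exact hy (Subsingleton.elim _ _)
  obtain ⟨i, -, hi⟩ := Finset.exists_mem_eq_sup' (s := (Finset.univ : Finset (Fin m)))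
    hne (fun i => ‖y i‖₊)
  refine ⟨i, ?_⟩
  have h : ‖y‖₊ = ‖y i‖₊ := by
    rw [Pi.nnnorm_def, ← Finset.sup'_eq_sup hne]
    exact hi
  rw [← Real.norm_eq_abs, ← coe_nnnorm, ← coe_nnnorm, h]

/-- The coefficients in terms of monomials. -/
noncomputable def tr {r m : ℕ} (a : Fin r → Pr m → ℤ) :
    Fin r → Pool.GE.Ix (fun _ : Fin m => ()) (fun _ : Unit => 2) → ℤ :=
  fun j s => a j ((Quad_equiv m).symm s)

theorem tr_form {r m : ℕ} {R : Type*} [CommRing R] (a : Fin r → Pr m → ℤ) (j : Fin r)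
    (x : Fin m → R) :
    Pool.GE.FF (fun s => ((tr a j s : ℤ) : R)) x = ∑ q, (a j q : R) * (x q.1.1 * x q.1.2) :=
  Quad_FF (fun q => ((a j q : ℤ) : R)) x

theorem tr_form_int {r m : ℕ} (a : Fin r → Pr m → ℤ) (j : Fin r) (x : Fin m → ℤ) :
    Pool.GE.FF (tr a j) x = ∑ q, a j q * (x q.1.1 * x q.1.2) :=
  Quad_FF (a j) x

/-- From the statement `WS1`. -/
theorem good {r m N P L A : ℕ} {c : ℝ} {a : Fin r → Pr m → ℤ} (h : WS1 N P L A c (tr a)) :
    ∀ (y : Fin m → ℝ) (M : (p : ℕ) → [Fact p.Prime] → Fin m → ℤ_[p]),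
      (y ≠ 0 ∧ ∀ j, ∑ q, (a j q : ℝ) * (y q.1.1 * y q.1.2) = 0) →
      (∀ (p : ℕ) [Fact p.Prime], p ≤ P → (∃ i, ‖M p i‖ = 1) ∧
        ∀ j, ∑ q, (a j q : ℤ_[p]) * (M p q.1.1 * M p q.1.2) = 0) →
      ∃ S : Finset (Fin m → ℤ), c * L ≤ (S.card : ℝ) ∧ ∀ x ∈ S,
        (∀ j, ∑ q, a j q * (x q.1.1 * x q.1.2) = 0) ∧
        (∀ i, |x i| ^ (m - 2 * r) ≤ (L : ℤ) * (A : ℤ) ^ r) ∧
        (∀ d : ℤ, (∀ i, d ∣ x i) → IsUnit d) ∧
        (∃ μ : ℝ, 0 < μ ∧ ∀ i, |μ * x i - y i| ≤ 1 / N * ‖y‖) ∧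
        ∀ (p : ℕ) [Fact p.Prime], p ≤ N → ∀ i,
          ‖(x i : ℤ_[p]) - M p i‖ ≤ (p : ℝ) ^ (-(N : ℤ)) := by
  rintro y M ⟨hy, hy0⟩ hM
  have hpos : 0 < ‖y‖ := norm_pos_iff.2 hy
  have hz : RZr (tr a) (fun v => ‖y‖⁻¹ * y v) := by
    refine ⟨?_, ?_, ?_⟩
    · intro v
      rw [abs_mul, abs_inv, abs_of_pos hpos, inv_mul_le_iff₀ hpos, mul_one, ← Real.norm_eq_abs]
      exact norm_le_pi_norm y v
    · intro i
      obtain ⟨v, hv⟩ := exists_norm y hy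
      refine ⟨v, rfl, ?_⟩
      rw [abs_mul, abs_inv, abs_of_pos hpos, hv, inv_mul_cancel₀ hpos.ne']
    · intro j
      rw [tr_form]
      have h1 : ∑ q, (a j q : ℝ) * (‖y‖⁻¹ * y q.1.1 * (‖y‖⁻¹ * y q.1.2)) =
          ‖y‖⁻¹ ^ 2 * ∑ q, (a j q : ℝ) * (y q.1.1 * y q.1.2) := by
        rw [Finset.mul_sum]
        refine Finset.sum_congr rfl fun q _ => ?_
        ring
      rw [h1, hy0 j, mul_zero]
  obtain ⟨S, hS1, hS2⟩ := h _ hz (fun p _ => M p) (fun p _ hp => by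
    obtain ⟨⟨i, hi⟩, h2⟩ := hM p hp
    refine ⟨fun _ => ⟨i, rfl, hi⟩, fun j => ?_⟩
    rw [tr_form]
    exact h2 j)
  refine ⟨S, hS1, fun x hx => ?_⟩
  obtain ⟨g1, g2, g3, ⟨μ, hμ, g4⟩, g5⟩ := hS2 x hx
  refine ⟨fun j => ?_, ?_, ?_, ⟨μ * ‖y‖, by positivity, ?_⟩, g5⟩
  · rw [← tr_form_int]
    exact g2 j
  · intro i
    have h1 := g3 i
    rw [Fintype.card_fin, Fintype.card_fin] at h1
    exact h1
  · intro d hd
    obtain ⟨e, he⟩ := g1 ()
    rw [Quad_bk] at he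
    exact isUnit_of_dvd_one (by rw [← he]; exact Finset.dvd_sum fun v _ => (hd v).mul_left _)
  · intro i
    have h1 := g4 i
    have h2 : μ * ‖y‖ * (x i : ℝ) - y i = (μ * (x i : ℝ) - ‖y‖⁻¹ * y i) * ‖y‖ := by
      field_simp
    rw [h2, abs_mul, abs_of_pos hpos]
    exact mul_le_mul_of_nonneg_right h1 hpos.le

open Classical in
theorem result :
    ∀ (r m N : ℕ) (ε : ℝ), 1 ≤ r → 2 * r + 2 ≤ m → 1 ≤ N → 0 < ε →
      ∃ (c : ℝ) (P L₀ : ℕ), 0 < c ∧ N ≤ P ∧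
      ∀ L : ℕ, L₀ ≤ L → ∃ A₀ : ℕ, ∀ A : ℕ, A₀ ≤ A →
      (((Fintype.piFinset fun _ : Fin r =>
          Fintype.piFinset fun _ : {q : Fin m × Fin m // q.1 ≤ q.2} =>
            Finset.Icc (-(A : ℤ)) (A : ℤ)).filter fun a =>
          ¬ ∀ (y : Fin m → ℝ) (M : (p : ℕ) → [Fact p.Prime] → Fin m → ℤ_[p]),
            (y ≠ 0 ∧ ∀ j, ∑ q, (a j q : ℝ) * (y q.1.1 * y q.1.2) = 0) →
            (∀ (p : ℕ) [Fact p.Prime], p ≤ P → (∃ i, ‖M p i‖ = 1) ∧
              ∀ j, ∑ q, (a j q : ℤ_[p]) * (M p q.1.1 * M p q.1.2) = 0) →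
            ∃ S : Finset (Fin m → ℤ), c * L ≤ (S.card : ℝ) ∧ ∀ x ∈ S,
              (∀ j, ∑ q, a j q * (x q.1.1 * x q.1.2) = 0) ∧
              (∀ i, |x i| ^ (m - 2 * r) ≤ (L : ℤ) * (A : ℤ) ^ r) ∧
              (∀ d : ℤ, (∀ i, d ∣ x i) → IsUnit d) ∧
              (∃ μ : ℝ, 0 < μ ∧ ∀ i, |μ * x i - y i| ≤ 1 / N * ‖y‖) ∧
              ∀ (p : ℕ) [Fact p.Prime], p ≤ N → ∀ i,
                ‖(x i : ℤ_[p]) - M p i‖ ≤ (p : ℝ) ^ (-(N : ℤ))).card : ℝ) ≤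
        ε * (2 * (A : ℝ) + 1) ^ (r * (m * (m + 1) / 2)) := by
  intro r m N ε hr hm hN hε
  obtain ⟨c, P, L₀, hc, hP, h⟩ := f_MAIN1 (Fin m) Unit (Fin r) (fun _ => ()) (fun _ => 2) () N ε
    (fun _ => rfl) rfl (by simpa using hr) (by simpa using hm) hN hε
  refine ⟨c, P, L₀, hc, hP, fun L hL => ?_⟩
  obtain ⟨A₀, h⟩ := h L hL
  refine ⟨A₀, fun A hA => ?_⟩
  have h1 := h A hA
  have hcard : Fintype.card (Pool.GE.Ix (fun _ : Fin m => ()) (fun _ : Unit => 2)) =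
      m * (m + 1) / 2 := by
    rw [← Fintype.card_congr (Quad_equiv m), Quad_card]
  rw [hcard, Fintype.card_fin] at h1
  refine le_trans (Nat.cast_le.2 ?_) h1
  refine Finset.card_le_card_of_injOn tr ?_ ?_
  · intro a ha
    rw [Finset.mem_coe, Finset.mem_filter] at ha ⊢
    refine ⟨?_, fun hW => ha.2 (good hW)⟩
    rw [Bxr, Fintype.mem_piFinset]
    intro j
    rw [Pool.GE.Bx, Fintype.mem_piFinset]
    intro s
    have h2 := Fintype.mem_piFinset.1 (Fintype.mem_piFinset.1 ha.1 j) ((Quad_equiv m).symm s)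
    exact h2
  · intro a _ a' _ haa
    funext j q
    have h2 := congrFun (congrFun haa j) (Quad_equiv m q)
    unfold tr at h2
    rwa [Equiv.symm_apply_apply] at h2

end Pool.Agent.Results.MP_9fb703_nt.AlmostAllSystems
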