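import Pool.Agent.Work.MP_9fb703_fq.FinalQ

/-!
# Weak approximation for almost all intersections of a fixed quadric with a second quadric

Let `q` be a fixed nonsingular quadratic form with integer coefficients in `m ≥ 6` variables which
has a nontrivial rational zero (the coefficients are indexed by the pairs `(i, j)` in
`Fin m × Fin m` with `i ≤ j`).  For every `N ≥ 1` and every `ε > 0` there are `c > 0` and `P` such
that for every large `A` the following holds for all quadratic forms `a` with integer coefficients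
in `[-A, A]` except for a proportion of at most `ε`: for every nonzero real common zero `y` of `q`
and `a` and all primitive `p`-adic common zeros `M_p`, `p ≤ P`, there are at least `c log A`
primitive integral common zeros `x` with `|x_i|^(m - 4) ≤ A log^2 A` such that a positive multiple
of `x` is within `‖y‖ / N` of `y` and such that `x` is congruent to `M_p` modulo `p ^ N` for every
prime `p ≤ N`.
-/

set_option autoImplicit false

namespace Pool.Agent.Results.MP_9fb703_nt.FixedQuadric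

open Classical in
theorem result :
    ∀ (m N : ℕ) (ε : ℝ) (q : {q : Fin m × Fin m // q.1 ≤ q.2} → ℤ), 6 ≤ m → 1 ≤ N → 0 < ε →
      (∀ x : Fin m → ℚ, (∀ y : Fin m → ℚ,
        ∑ i, (q i : ℚ) * ((x i.1.1 + y i.1.1) * (x i.1.2 + y i.1.2)) =
          ∑ i, (q i : ℚ) * (x i.1.1 * x i.1.2) + ∑ i, (q i : ℚ) * (y i.1.1 * y i.1.2)) → x = 0) →
      (∃ x : Fin m → ℚ, x ≠ 0 ∧ ∑ i, (q i : ℚ) * (x i.1.1 * x i.1.2) = 0) →
      ∃ (c : ℝ) (P A₀ : ℕ), 0 < c ∧ N ≤ P ∧ ∀ A : ℕ, A₀ ≤ A →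
      (((Fintype.piFinset fun _ : {q : Fin m × Fin m // q.1 ≤ q.2} =>
            Finset.Icc (-(A : ℤ)) (A : ℤ)).filter fun a =>
          ¬ ∀ (y : Fin m → ℝ) (M : (p : ℕ) → [Fact p.Prime] → Fin m → ℤ_[p]),
            (y ≠ 0 ∧ ∑ i, (q i : ℝ) * (y i.1.1 * y i.1.2) = 0 ∧
              ∑ i, (a i : ℝ) * (y i.1.1 * y i.1.2) = 0) →
            (∀ (p : ℕ) [Fact p.Prime], p ≤ P → (∃ i, ‖M p i‖ = 1) ∧
              ∑ i, (q i : ℤ_[p]) * (M p i.1.1 * M p i.1.2) = 0 ∧
              ∑ i, (a i : ℤ_[p]) * (M p i.1.1 * M p i.1.2) = 0) →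
            ∃ S : Finset (Fin m → ℤ), c * Real.log A ≤ (S.card : ℝ) ∧ ∀ x ∈ S,
              ∑ i, q i * (x i.1.1 * x i.1.2) = 0 ∧ ∑ i, a i * (x i.1.1 * x i.1.2) = 0 ∧
              (∀ i, |(x i : ℝ)| ^ (m - 4) ≤ A * Real.log A ^ 2) ∧
              (∀ d : ℤ, (∀ i, d ∣ x i) → IsUnit d) ∧
              (∃ μ : ℝ, 0 < μ ∧ ∀ i, |μ * x i - y i| ≤ 1 / N * ‖y‖) ∧
              ∀ (p : ℕ) [Fact p.Prime], p ≤ N → ∀ i,
                ‖(x i : ℤ_[p]) - M p i‖ ≤ (p : ℝ) ^ (-(N : ℤ))).card : ℝ) ≤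
        ε * (2 * (A : ℝ) + 1) ^ (m * (m + 1) / 2) :=
  Pool.FQ.main Pool.FQ.f_QAD Pool.FQ.f_FNQ

end Pool.Agent.Results.MP_9fb703_nt.FixedQuadric
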