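import Pool.Agent.Work.MP_9fb703_gl.All

/-!
# Weak approximation for almost all gluings of two fixed pencils of quadratic forms

`q = (q_1, q_2)` is a fixed pair of integral quadratic forms in four variables (given by arbitrary
integer matrices) such that the curve `q = 0` in `P³` is smooth, `φ = (φ_1, φ_2)` a fixed pair of
integral binary quadratic forms without common zero.  A matrix `M` in `M₂(ℤ)` glues them to the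
intersection of two quadrics `X_M : q(x) = M φ(w)` in `P⁵`.

For all `N`, `L`, `ε` there are `P` and `U` such that for every large `A` all matrices `M` with entries
in `[-A, A]`, except for a proportion of at most `ε`, satisfy: for every real zero `(y, v) ≠ 0` of
`X_M` and all primitive `p`-adic zeros `(x_p, w_p)`, `p ≤ P`, there are at least `L` primitive
integral zeros `(x, w)` with `w ≠ 0`, `|w_j| ≤ U`, which are congruent to `(x_p, w_p)` modulo `p ^ N`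
for the primes `p ≤ N` and such that for some `t > 0` both `|t x_j - y_j|` and `√A |t w_j - v_j|` are at
most `max (‖y‖, √A ‖v‖) / N`.
-/

set_option autoImplicit false

namespace Pool.Agent.Results.MP_9fb703_nt.GluedPencils

open Matrix

theorem result :
    ∀ (q : Fin 2 → Matrix (Fin 4) (Fin 4) ℤ) (φ : Fin 2 → Matrix (Fin 2) (Fin 2) ℤ) (N L : ℕ)
      (ε : ℝ), 1 ≤ N → 0 < ε →
      (∀ x : Fin 4 → ℂ, x ≠ 0 → (∀ i, x ⬝ᵥ ((q i).map (Int.cast : ℤ → ℂ) *ᵥ x) = 0) →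
        LinearIndependent ℂ fun i => (q i + (q i)ᵀ).map (Int.cast : ℤ → ℂ) *ᵥ x) →
      (∀ w : Fin 2 → ℂ, w ≠ 0 → ∃ i, w ⬝ᵥ ((φ i).map (Int.cast : ℤ → ℂ) *ᵥ w) ≠ 0) →
      ∃ P U A₀ : ℕ, N ≤ P ∧ ∀ A : ℕ, A₀ ≤ A →
      (Set.ncard {M : Matrix (Fin 2) (Fin 2) ℤ | (∀ i j, |M i j| ≤ A) ∧
        ¬ ∀ (y : Fin 4 → ℝ) (v : Fin 2 → ℝ) (x : (p : ℕ) → [Fact p.Prime] → Fin 4 → ℤ_[p])
            (w : (p : ℕ) → [Fact p.Prime] → Fin 2 → ℤ_[p]),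
          ((y ≠ 0 ∨ v ≠ 0) ∧ ∀ i, y ⬝ᵥ ((q i).map (Int.cast : ℤ → ℝ) *ᵥ y) =
            ∑ j, (M i j : ℝ) * (v ⬝ᵥ ((φ j).map (Int.cast : ℤ → ℝ) *ᵥ v))) →
          (∀ (p : ℕ) [Fact p.Prime], p ≤ P → ((∃ j, ‖x p j‖ = 1) ∨ ∃ j, ‖w p j‖ = 1) ∧
            ∀ i, x p ⬝ᵥ ((q i).map (Int.cast : ℤ → ℤ_[p]) *ᵥ x p) =
              ∑ j, (M i j : ℤ_[p]) * (w p ⬝ᵥ ((φ j).map (Int.cast : ℤ → ℤ_[p]) *ᵥ w p))) →
          ∃ S : Finset ((Fin 4 → ℤ) × (Fin 2 → ℤ)), L ≤ S.card ∧ ∀ z ∈ S,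
            (∀ i, z.1 ⬝ᵥ (q i *ᵥ z.1) = ∑ j, M i j * (z.2 ⬝ᵥ (φ j *ᵥ z.2))) ∧
            z.2 ≠ 0 ∧ (∀ j, |z.2 j| ≤ U) ∧
            (∀ d : ℤ, (∀ j, d ∣ z.1 j) → (∀ j, d ∣ z.2 j) → IsUnit d) ∧
            (∃ t : ℝ, 0 < t ∧
              (∀ j, |t * z.1 j - y j| ≤ 1 / N * max ‖y‖ (Real.sqrt A * ‖v‖)) ∧
              ∀ j, Real.sqrt A * |t * z.2 j - v j| ≤ 1 / N * max ‖y‖ (Real.sqrt A * ‖v‖)) ∧
            ∀ (p : ℕ) [Fact p.Prime], p ≤ N →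
              (∀ j, ‖((z.1 j : ℤ) : ℤ_[p]) - x p j‖ ≤ (p : ℝ) ^ (-(N : ℤ))) ∧
              ∀ j, ‖((z.2 j : ℤ) : ℤ_[p]) - w p j‖ ≤ (p : ℝ) ^ (-(N : ℤ))} : ℝ) ≤
        ε * (2 * (A : ℝ) + 1) ^ 4 :=
  Pool.GLU.main Pool.GLU.f_PEN Pool.GLU.f_RES Pool.GLU.f_ASM Pool.GLU.f_RED

end Pool.Agent.Results.MP_9fb703_nt.GluedPencils
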